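import Pool.Agent.Helper53.WR.Params

set_option autoImplicit false

namespace Pool.Agent.Helper93.WR

open Finset Filter
open Pool.Agent.Helper53.WR

/-- A constant times a power is eventually at most a strictly larger power. -/
lemma eventually_mul_rpow_le (C a b : ℝ) (hab : a < b) :
    ∀ᶠ x : ℝ in atTop, C * x ^ a ≤ x ^ b := by
  have h1 : Tendsto (fun x : ℝ => x ^ (b - a)) atTop atTop :=
    tendsto_rpow_atTop (by linarith)
  filter_upwards [h1.eventually_ge_atTop C, eventually_gt_atTop (0 : ℝ)] with x hx hx0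
  calc C * x ^ a ≤ x ^ (b - a) * x ^ a :=
        mul_le_mul_of_nonneg_right hx (Real.rpow_nonneg hx0.le a)
    _ = x ^ b := by rw [← Real.rpow_add hx0]; congr 1; ring

/-- WR-E8 (final form). -/
theorem final_form (h : ∀ ρ ε : ℝ, 0 < ρ → ρ < 1 → 0 < ε → HasExp (ρ + ε) (1 - ρ + ε))
    (ρ ε : ℝ) (hρ0 : 0 < ρ) (hρ1 : ρ < 1) (hε : 0 < ε) :
    ∃ A : Set ℕ, (∀ᶠ n : ℕ in atTop, (rep A n : ℝ) ≤ (Real.log n) ^ (ρ + ε)) ∧
      ∀ᶠ J : ℕ in atTop, (badCount A J : ℝ) ≤ (J : ℝ) ^ (1 - ρ + ε) := by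
  obtain ⟨A, ⟨C, hC⟩, ⟨D, hD⟩⟩ := h ρ (ε / 2) hρ0 hρ1 (by linarith)
  refine ⟨A, ?_, ?_⟩
  · have hlog : Tendsto (fun n : ℕ => Real.log (n : ℝ)) atTop atTop :=
      Real.tendsto_log_atTop.comp tendsto_natCast_atTop_atTop
    have h1 := hlog.eventually (eventually_mul_rpow_le (max C 0 * 3 ^ (ρ + ε / 2)) (ρ + ε / 2)
      (ρ + ε) (by linarith))
    filter_upwards [h1, eventually_ge_atTop 2] with n hn h2
    have hn0 : (0 : ℝ) < n := by positivity
    have hl2 : (0.6931471803 : ℝ) < Real.log 2 := Real.log_two_gt_d9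
    have hlogn : Real.log 2 ≤ Real.log n := by
      apply Real.log_le_log (by norm_num)
      exact_mod_cast h2
    have hpow : (2 : ℝ) ^ (Nat.log 2 n) ≤ n := by
      exact_mod_cast Nat.pow_log_le_self 2 (by omega)
    have hl : (Nat.log 2 n : ℝ) * Real.log 2 ≤ Real.log n := by
      have := Real.log_le_log (by positivity) hpow
      rwa [Real.log_pow] at this
    have hl3 : ((Nat.log 2 n + 1 : ℕ) : ℝ) ≤ 3 * Real.log n := by
      push_cast
      have hk : (Nat.log 2 n : ℝ) * 0.6931471803 ≤ Real.log n := by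
        refine le_trans ?_ hl
        exact mul_le_mul_of_nonneg_left hl2.le (by positivity)
      have : (0 : ℝ) ≤ (Nat.log 2 n : ℝ) := by positivity
      nlinarith
    have hlt : n < 2 ^ (Nat.log 2 n + 1) := Nat.lt_pow_succ_log_self (by norm_num) n
    have h3 := hC (Nat.log 2 n + 1) (by omega) n hlt
    have hln0 : 0 ≤ Real.log n := by linarith
    calc (rep A n : ℝ) ≤ C * ((Nat.log 2 n + 1 : ℕ) : ℝ) ^ (ρ + ε / 2) := h3
      _ ≤ max C 0 * ((Nat.log 2 n + 1 : ℕ) : ℝ) ^ (ρ + ε / 2) :=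
          mul_le_mul_of_nonneg_right (le_max_left _ _) (by positivity)
      _ ≤ max C 0 * (3 * Real.log n) ^ (ρ + ε / 2) := by
          apply mul_le_mul_of_nonneg_left _ (le_max_right _ _)
          exact Real.rpow_le_rpow (by positivity) hl3 (by linarith)
      _ = max C 0 * 3 ^ (ρ + ε / 2) * (Real.log n) ^ (ρ + ε / 2) := by
          rw [Real.mul_rpow (by norm_num) hln0]; ring
      _ ≤ _ := hn
  · have h1 := tendsto_natCast_atTop_atTop.eventually (eventually_mul_rpow_le D (1 - ρ + ε / 2)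
      (1 - ρ + ε) (by linarith))
    filter_upwards [h1, eventually_ge_atTop 1] with J hJ h1J
    exact (hD J h1J).trans hJ

end Pool.Agent.Helper93.WR
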